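import Pool.Agent.K7.H98.MC3

/-!
# The multicolour threshold-2 bootstrap dynamics: the answer to Q1 is negative for every `κ ≥ 3`

Idea of the proof. A site in state `0` with three neighbours in states at least `2` can never have
two neighbours in state `1`, so it is frozen in state `0`. If the four corners of the square
`[-3k, 3k]²` are frozen in this way and no site of the square is initially in state `κ`, then no site
of the square ever reaches the state `κ`: every other site of the square has at most one neighbour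
outside. Such corners occur for some `k` up to about `p₂^(-12)`, and if `p_κ ≪ p₂^25` there is no
initial `κ` in that square.
-/

set_option autoImplicit false

namespace Pool.Agent.Results.MP_3d955a_pr.TerminalStateNotReached

open MeasureTheory Filter Topology
open Pool.Agent.K7.H98.MC

/-- The assertion of the question for `κ`: there are `γ₂, …, γ_κ > 0` such that, along all sequences
of (positive) parameter vectors with `p₁ → 0` and `p_i / p_{i-1}^{γ_i} → 0` for `2 ≤ i ≤ κ`, the
probability that the origin is eventually in state `κ` tends to `1`. -/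
def Q1 (κ : ℕ) : Prop :=
  ∃ γ : ℕ → ℝ, (∀ i, 2 ≤ i → i ≤ κ → 0 < γ i) ∧
    ∀ p : ℕ → PMF (Fin (κ + 1)), (∀ n, ∀ i ≤ κ, 0 < wt (p n) i) →
      Tendsto (fun n => wt (p n) 1) atTop (𝓝 0) →
      (∀ i, 2 ≤ i → i ≤ κ →
        Tendsto (fun n => wt (p n) i / wt (p n) (i - 1) ^ γ i) atTop (𝓝 0)) →
      Tendsto (fun n => prob (p n)) atTop (𝓝 1)

/-- **The answer to Q1 is negative for every `κ ≥ 3`.** Moreover, for all exponents `γ` there are
sequences of parameter vectors satisfying the conditions of the question along which the probability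
even tends to `0`; and it tends to `0` along every sequence with `p₀` bounded below, `p₂ → 0` and
`p_κ / p₂^25 → 0`. -/
theorem result (κ : ℕ) (hκ : 3 ≤ κ) :
    ¬ Q1 κ ∧
    (∀ γ : ℕ → ℝ, ∃ p : ℕ → PMF (Fin (κ + 1)), (∀ n, ∀ i ≤ κ, 0 < wt (p n) i) ∧
      Tendsto (fun n => wt (p n) 1) atTop (𝓝 0) ∧
      (∀ i, 2 ≤ i → i ≤ κ →
        Tendsto (fun n => wt (p n) i / wt (p n) (i - 1) ^ γ i) atTop (𝓝 0)) ∧
      Tendsto (fun n => prob (p n)) atTop (𝓝 0)) ∧
    (∀ (p : ℕ → PMF (Fin (κ + 1))) (c : ℝ), 0 < c → (∀ᶠ n in atTop, c ≤ wt (p n) 0) →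
      (∀ᶠ n in atTop, 0 < wt (p n) 2) → Tendsto (fun n => wt (p n) 2) atTop (𝓝 0) →
      Tendsto (fun n => wt (p n) κ / wt (p n) 2 ^ 25) atTop (𝓝 0) →
      Tendsto (fun n => prob (p n)) atTop (𝓝 0)) := by
  refine ⟨?_, exists_seq hκ, fun p c hc h0 hpos h2 hk => tendsto_prob hκ p c hc h0 hpos h2 hk⟩
  rintro ⟨γ, -, h⟩
  obtain ⟨p, h1, h2, h3, h4⟩ := exists_seq hκ γ
  exact zero_ne_one (tendsto_nhds_unique h4 (h p h1 h2 h3))

end Pool.Agent.Results.MP_3d955a_pr.TerminalStateNotReached
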